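import Pool.Agent.Helper20.NP.Stmts

set_option autoImplicit false

namespace Pool.Agent.Helper20.NP

open Pool.Agent.Helper21.DN

universe u

theorem main_bot {P : Type} [Group P] (p : ℕ) (hp : p.Prime) (z : P) (hz : orderOf z = p) :
    z ∉ (⊥ : Subgroup P) := by
  intro h
  rw [Subgroup.mem_bot] at h
  rw [h, orderOf_one] at hz
  exact hp.one_lt.ne hz

theorem main_int (hUPP : ST_UPP.{u}) (p : ℕ) [Fact p.Prime] (hp2 : p ≠ 2) (k : Type u) [Field k]
    [CharP k p] [IsAlgClosed k] (P : Type) [Group P] [Finite P] (hP : IsPGroup p P)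
    (hN : Nontrivial P) (H : Subgroup P)
    (hH : ∀ x ∈ H, x ^ p = 1 → ∀ y ∈ H, x * y = y * x) :
    ∀ c ∈ condSet k P, ∃ a : ℤ, (H.index : ℝ) * c = (a : ℝ) := by
  intro c hc
  obtain ⟨z, _, hz2, hz3⟩ := hUPP p hp2 k P hP hN c hc
  refine hz3 H ⊥ bot_le ?_ (main_bot p Fact.out z hz2) ?_
  · rw [Subgroup.bot_subgroupOf]
    infer_instance
  · intro x hx hxp y hy
    rw [Subgroup.mem_bot] at hxp ⊢
    rw [hH x hx hxp y hy]
    group

theorem main_rel {P : Type} [Group P] [Finite P] (p : ℕ) [Fact p.Prime]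
    (hc : Nat.card (commutator P) = p) (E : Subgroup P) :
    (Subgroup.center P).relIndex E = 1 ∨
      Nat.card (⁅E, (⊤ : Subgroup P)⁆ : Subgroup P) = p := by
  have h1 : (⁅E, (⊤ : Subgroup P)⁆ : Subgroup P) ≤ commutator P := by
    rw [commutator_def]
    exact Subgroup.commutator_mono le_top le_rfl
  have h2 : Nat.card (⁅E, (⊤ : Subgroup P)⁆ : Subgroup P) ∣ p := by
    rw [← hc]
    exact Subgroup.card_dvd_of_le h1
  rcases (Nat.dvd_prime (Fact.out : p.Prime)).1 h2 with h | h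
  · left
    rw [Subgroup.relIndex_eq_one]
    have h3 : (⁅E, (⊤ : Subgroup P)⁆ : Subgroup P) = ⊥ := Subgroup.card_eq_one.1 h
    intro x hx
    rw [Subgroup.mem_center_iff]
    intro g
    have h4 : x * g * x⁻¹ * g⁻¹ ∈ (⁅E, (⊤ : Subgroup P)⁆ : Subgroup P) :=
      Subgroup.commutator_mem_commutator hx (Subgroup.mem_top g)
    rw [h3, Subgroup.mem_bot] at h4
    have h5 : x * g = g * x := by
      have h6 : x * g * x⁻¹ * g⁻¹ * (g * x) = g * x := by rw [h4, one_mul]
      rw [← h6]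
      group
    exact h5.symm
  · right
    exact h

/-- the main theorem from its parts -/
theorem st_MAIN (hUPP : ST_UPP.{u}) (hLOW : ST_LOW.{u}) (hALP : ST_ALP) (hGE : ST_GE)
    (hNPU : ST_NPU.{u}) (hNPL : ST_NPL.{u}) (hM : Pool.Agent.Helper21.DN.ST_MAIN.{u}) :
    ST_MAIN.{u} := by
  intro p _ hp2 k _ _ _ P _ _ hP hN
  have hp : p.Prime := Fact.out
  have hU := fun H hH => hNPU k P (Subgroup.index H) (Nat.pos_of_ne_zero
    Subgroup.index_ne_zero_of_finite) (main_int hUPP p hp2 k P hP hN H hH)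
  have h0 : 0 < NP k P := (hU ⊥ (by
    intro x hx _ y hy
    rw [Subgroup.mem_bot] at hx hy
    rw [hx, hy])).1
  have hcent : (∀ x : P, x ^ p = 1 → x ∈ Subgroup.center P) →
      ∀ c ∈ condSet k P, ∃ a : ℤ, c = (a : ℝ) := by
    intro h c hc
    obtain ⟨a, ha⟩ := main_int hUPP p hp2 k P hP hN ⊤ (fun x _ hx y _ =>
      ((Subgroup.mem_center_iff.1 (h x hx)) y).symm) c hc
    refine ⟨a, ?_⟩
    rw [Subgroup.index_top, Nat.cast_one, one_mul] at ha
    exact ha
  have hlow : (∃ x : P, x ^ p = 1 ∧ x ∉ Subgroup.center P) → p ∣ NP k P := by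
    intro hx
    obtain ⟨e, he1, he2, he3⟩ := hALP p hp2 P hP hx
    obtain ⟨n0, hn0⟩ := hLOW p hp2 k P hP e he1 he2 he3
    refine hNPL k P p hp.pos ?_ ?_
    · refine ⟨Nat.card P, Nat.card_pos, ?_⟩
      have h1 : {c | c ∈ condSet k P ∧ ¬ ∃ z : ℤ, ((Nat.card P : ℕ) : ℝ) * c = (z : ℝ)} = ∅ := by
        rw [Set.eq_empty_iff_forall_notMem]
        rintro c ⟨hc1, hc2⟩
        apply hc2
        obtain ⟨a, ha⟩ := main_int hUPP p hp2 k P hP hN ⊥ (by
          intro x hx _ y hy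
          rw [Subgroup.mem_bot] at hx hy
          rw [hx, hy]) c hc1
        rw [Subgroup.index_bot] at ha
        exact ⟨a, ha⟩
      rw [h1]
      exact Set.finite_empty
    · intro m
      refine ⟨p * (n0 + m + 1) + 1, ?_, ?_⟩
      · have h1 : n0 + m + 1 ≤ p * (n0 + m + 1) := Nat.le_mul_of_pos_left _ hp.pos
        omega
      · apply hn0
        · have h1 : n0 + m + 1 ≤ p * (n0 + m + 1) := Nat.le_mul_of_pos_left _ hp.pos
          omega
        · intro h
          have h1 : p ∣ 1 := (Nat.dvd_add_right (Dvd.intro _ rfl)).1 h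
          exact hp.one_lt.ne' (Nat.dvd_one.1 h1)
        · intro h
          have h1 : p ∣ 2 := by
            have h2 : p * (n0 + m + 1) + 1 + 1 = p * (n0 + m + 1) + 2 := by ring
            rw [h2] at h
            exact (Nat.dvd_add_right (Dvd.intro _ rfl)).1 h
          exact hp2 ((Nat.prime_dvd_prime_iff_eq hp Nat.prime_two).1 h1)
  refine ⟨h0, ⟨?_, ?_⟩, hcent, ?_, ?_, ?_⟩
  · intro h1 x hx
    by_contra hxc
    have h2 := hlow ⟨x, hx, hxc⟩
    rw [h1] at h2
    exact hp.one_lt.ne' (Nat.dvd_one.1 h2)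
  · intro h
    have h1 := (hNPU k P 1 one_pos (by
      intro c hc
      obtain ⟨a, ha⟩ := hcent h c hc
      exact ⟨a, by rw [Nat.cast_one, one_mul, ha]⟩)).2
    exact Nat.dvd_one.1 h1
  · intro H hH
    exact (hU H hH).2
  · exact hUPP p hp2 k P hP hN
  · intro hc
    obtain ⟨E, hE1, hE2, hE3, hE4, hE5⟩ := hGE p P hP hc
    have h2 : (Subgroup.center P).relIndex E ∣ NP k P := by
      rcases hE5 with h | h
      · rw [h]
        exact one_dvd _
      · exact (hM p k).2.1 hp2 P hP E hE1 hE2 h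
    have h3 : NP k P ∣ (Subgroup.center P).relIndex E := by
      rw [← hE4]
      exact (hU _ hE3).2
    refine ⟨⟨E, hE1, hE2, Nat.dvd_antisymm h3 h2⟩, ?_⟩
    rintro m ⟨E', hE'1, hE'2, rfl⟩
    rcases main_rel p hc E' with h | h
    · rw [h]
      exact h0
    · exact Nat.le_of_dvd h0 ((hM p k).2.1 hp2 P hP E' hE'1 hE'2 h)

end Pool.Agent.Helper20.NP
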