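import Pool.Agent.Helper21.DN.Stmts

set_option autoImplicit false

/-! # Denominators of conductors: the criterion `N_P = 1 ↔ Ω₁(P) ≤ Z(P)` (interfaces) -/

namespace Pool.Agent.Helper20.NP

open Pool.Agent.Helper21.DN

universe u

open scoped Classical in
/-- The sum of `f` over the nontrivial elements of `N`. -/
noncomputable def SI {G : Type u} [Group G] [Fintype G] (f : G → ℕ) (N : Subgroup G) : ℕ :=
  ∑ g ∈ Finset.univ.filter (fun g => g ∈ N ∧ g ≠ 1), f g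

open scoped Classical in
/-- The sum of `f` over the elements outside `N`. -/
noncomputable def SO {G : Type u} [Group G] [Fintype G] (f : G → ℕ) (N : Subgroup G) : ℕ :=
  ∑ g ∈ Finset.univ.filter (fun g => g ∉ N), f g

/-! ## Derivations -/

/-- The derivation `D` of `L` lowers the valuation by at most `e`, and by exactly `e` on the
elements whose valuation is prime to `p`. -/
structure DV (p : ℕ) {L : Type u} [Field L] (v : AddValuation L (WithTop ℤ))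
    (D : Derivation ℤ L L) (e : ℤ) : Prop where
  le : ∀ x : L, v x ≤ v (D x) + (e : WithTop ℤ)
  eq : ∀ (x : L) (m : ℤ), v x = (m : WithTop ℤ) → ¬ (p : ℤ) ∣ m →
    v (D x) = ((m - e : ℤ) : WithTop ℤ)

/-- The derivation `D` of `L` commutes with the automorphisms of `L / K`, and on `K` it lowers
the valuation of `K` (that is `v / [L : K]`) by at most `e`, with equality on the elements whose
valuation is prime to `p`. -/
structure Dif (p : ℕ) (K : Type u) {L : Type u} [Field K] [Field L] [Algebra K L]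
    (v : AddValuation L (WithTop ℤ)) (D : Derivation ℤ L L) (e : ℤ) : Prop where
  comm : ∀ (σ : L ≃ₐ[K] L) (x : L), D (σ x) = σ (D x)
  le : ∀ x : K, v (algebraMap K L x) ≤
    v (D (algebraMap K L x)) + (((Module.finrank K L : ℤ) * e : ℤ) : WithTop ℤ)
  eq : ∀ (x : K) (m : ℤ), v (algebraMap K L x) =
      (((Module.finrank K L : ℤ) * m : ℤ) : WithTop ℤ) → ¬ (p : ℤ) ∣ m →
    v (D (algebraMap K L x)) = (((Module.finrank K L : ℤ) * (m - e) : ℤ) : WithTop ℤ)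

/-- extension of derivations to separable extensions -/
def ST_DEXT : Prop := ∀ (K L : Type u) [Field K] [Field L] [Algebra K L]
  [FiniteDimensional K L] [Algebra.IsSeparable K L] (D0 : Derivation ℤ K K),
  ∃ D : Derivation ℤ L L, (∀ x : K, D (algebraMap K L x) = algebraMap K L (D0 x)) ∧
    ∀ (σ : L ≃ₐ[K] L) (x : L), D (σ x) = σ (D x)

/-- the derivation `d/dt` of `k((t))` -/
def ST_DK : Prop := ∀ (p : ℕ) [Fact p.Prime] (k : Type u) [Field k] [CharP k p],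
  ∃ D0 : Derivation ℤ (LaurentSeries k) (LaurentSeries k), ∀ x : LaurentSeries k,
    x.orderTop ≤ (D0 x).orderTop + ((1 : ℤ) : WithTop ℤ) ∧
    ∀ m : ℤ, x.orderTop = (m : WithTop ℤ) → ¬ (p : ℤ) ∣ m →
      (D0 x).orderTop = ((m - 1 : ℤ) : WithTop ℤ)

/-- the derivation on a Galois extension of `k((t))` -/
def ST_DIF0 : Prop := ∀ (p : ℕ) [Fact p.Prime] (k : Type u) [Field k] [CharP k p]
  [IsAlgClosed k] (L : Type u) [Field L] [Algebra (LaurentSeries k) L]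
  [FiniteDimensional (LaurentSeries k) L] [IsGalois (LaurentSeries k) L]
  (v : AddValuation L (WithTop ℤ)), (∀ x, v x = val k L x) →
  ∃ D : Derivation ℤ L L, Dif p (LaurentSeries k) v D 1

/-- a continuous derivation is determined by its value at a uniformizer -/
def ST_DC : Prop := ∀ (p : ℕ) [Fact p.Prime] (k L : Type u) [Field k] [CharP k p]
  [IsAlgClosed k] [Field L] (κ : k →+* L) (v : AddValuation L (WithTop ℤ)), TV κ v →
  ∀ (D : Derivation ℤ L L) (C e : ℤ) (π : L), (∀ x : L, v x ≤ v (D x) + (C : WithTop ℤ)) →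
  v π = 1 → v (D π) = ((1 - e : ℤ) : WithTop ℤ) → DV p v D e

/-- expansion in the powers of a uniformizer -/
def ST_BAS : Prop := ∀ (k K L : Type u) [Field k] [Field K] [Field L] [Algebra K L]
  [FiniteDimensional K L] [IsGalois K L] (κ : k →+* K) (v : AddValuation L (WithTop ℤ)),
  Ram κ v → ∀ π : L, v π = 1 → ∀ x : L, ∃ a : Fin (Module.finrank K L) → K,
    x = ∑ i, a i • π ^ (i : ℕ) ∧ (∀ i, v x ≤ v (a i • π ^ (i : ℕ))) ∧
    ∀ i, ∃ m : WithTop ℤ, v (algebraMap K L (a i)) = Module.finrank K L • m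

/-- the derivation on `L`: the shift is `[L : K] e + S1` (formula for the different) -/
def ST_DIFT : Prop := ∀ (p : ℕ) [Fact p.Prime] (k K L : Type u) [Field k] [CharP k p]
  [IsAlgClosed k] [Field K] [Field L] [Algebra K L] [FiniteDimensional K L] [IsGalois K L]
  (κ : k →+* K) (v : AddValuation L (WithTop ℤ)), Ram κ v → IsPGroup p (L ≃ₐ[K] L) →
  ∀ (D : Derivation ℤ L L) (e : ℤ), Dif p K v D e →
  DV p v D ((Module.finrank K L : ℤ) * e + (S1 (fun σ : L ≃ₐ[K] L => s v σ) : ℤ))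

/-- base change of the derivation -/
def ST_DIFE : Prop := ∀ (p : ℕ) [Fact p.Prime] (k K L : Type u) [Field k] [CharP k p]
  [IsAlgClosed k] [Field K] [Field L] [Algebra K L] [FiniteDimensional K L] [IsGalois K L]
  (κ : k →+* K) (v : AddValuation L (WithTop ℤ)), Ram κ v → IsPGroup p (L ≃ₐ[K] L) →
  ∀ (D : Derivation ℤ L L) (e : ℤ), Dif p K v D e →
  ∀ E : IntermediateField K L, ∃ e' : ℤ, Dif p E v D e'

/-- restriction of the derivation to a normal intermediate field -/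
def ST_DIFR : Prop := ∀ (p : ℕ) (K L : Type u) [Field K] [Field L]
  [Algebra K L] [FiniteDimensional K L] [IsGalois K L] (v : AddValuation L (WithTop ℤ))
  (D : Derivation ℤ L L) (e : ℤ), Dif p K v D e →
  ∀ (E : IntermediateField K L) [Normal K E] (vE : AddValuation E (WithTop ℤ)),
  (∀ x : E, v (x : L) = Module.finrank E L • vE x) →
  ∃ D' : Derivation ℤ E E, (∀ x : E, ((D' x : E) : L) = D (x : L)) ∧ Dif p K vE D' e

/-! ## Artin-Schreier theory and the two inequalities -/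

/-- reduction of an Artin-Schreier equation -/
def ST_RED : Prop := ∀ (p : ℕ) [Fact p.Prime] (k E : Type u) [Field k] [CharP k p]
  [IsAlgClosed k] [Field E] (κ : k →+* E) (v : AddValuation E (WithTop ℤ)), TV κ v →
  ∀ f : E, ∃ h : E, (0 ≤ v (f - (h ^ p - h)) ∨ ∃ n : ℕ, 1 ≤ n ∧ ¬ p ∣ n ∧
      v (f - (h ^ p - h)) = ((-(n : ℤ) : ℤ) : WithTop ℤ)) ∧
    ∀ N : ℤ, N ≤ 0 → (N : WithTop ℤ) ≤ v f → (N : WithTop ℤ) ≤ v (f - (h ^ p - h))

/-- the valuation of the base -/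
def ST_VK : Prop := ∀ (k K L : Type u) [Field k] [Field K] [Field L] [Algebra K L]
  [FiniteDimensional K L] [IsGalois K L] (κ : k →+* K) (v : AddValuation L (WithTop ℤ)),
  Ram κ v → ∃ vK : AddValuation K (WithTop ℤ), TV κ vK ∧
    ∀ x : K, v (algebraMap K L x) = Module.finrank K L • vK x

/-- reduced Artin-Schreier generators of the extensions of degree `p` -/
def ST_AS1 : Prop := ∀ (p : ℕ) [Fact p.Prime] (k K L : Type u) [Field k] [CharP k p]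
  [IsAlgClosed k] [Field K] [Field L] [Algebra K L] [FiniteDimensional K L] [IsGalois K L]
  (κ : k →+* K) (v : AddValuation L (WithTop ℤ)), Ram κ v → Module.finrank K L = p →
  ∀ σ : L ≃ₐ[K] L, σ ≠ 1 → ∃ (w : L) (α : K) (m : ℕ), 1 ≤ m ∧ ¬ p ∣ m ∧ σ w = w + 1 ∧
    w ^ p - w = algebraMap K L α ∧ v w = ((-(m : ℤ) : ℤ) : WithTop ℤ) ∧ s v σ = m

/-- approximation by elements of the base field -/
def ST_APX : Prop := ∀ (p : ℕ) [Fact p.Prime] (k K L : Type u) [Field k] [CharP k p]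
  [IsAlgClosed k] [Field K] [Field L] [Algebra K L] [FiniteDimensional K L] [IsGalois K L]
  (κ : k →+* K) (v : AddValuation L (WithTop ℤ)), Ram κ v → IsPGroup p (L ≃ₐ[K] L) →
  ∀ (h : L) (m : ℤ), (∀ σ : L ≃ₐ[K] L, (m : WithTop ℤ) ≤ v (σ h - h)) →
  ∃ H : K, ((((p : ℤ) - 1) * m - S1 (fun σ : L ≃ₐ[K] L => s v σ) : ℤ) : WithTop ℤ) ≤
    (p - 1) • v (h - algebraMap K L H)

/-- the upper break of an invariant Artin-Schreier class is an integer if it is large -/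
def ST_TPP : Prop := ∀ (p : ℕ) [Fact p.Prime] (k K E : Type u) [Field k] [CharP k p]
  [IsAlgClosed k] [Field K] [Field E] [Algebra K E] [FiniteDimensional K E] [IsGalois K E]
  (κ : k →+* K) (v : AddValuation E (WithTop ℤ)), Ram κ v → IsPGroup p (E ≃ₐ[K] E) →
  ∀ (D : Derivation ℤ E E) (e : ℤ), Dif p K v D e → ∀ (f : E) (n : ℕ), 1 ≤ n → ¬ p ∣ n →
  v f = ((-(n : ℤ) : ℤ) : WithTop ℤ) → (∀ σ : E ≃ₐ[K] E, ∃ g : E, σ f - f = g ^ p - g) →
  Module.finrank K E ∣ n + S1 (fun σ : E ≃ₐ[K] E => s v σ) ∨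
    (p - 1) ^ 2 * (n - 1) < p * S1 (fun σ : E ≃ₐ[K] E => s v σ)

/-- `TPP` for a central element of order `p` in the last ramification group -/
def ST_TG : Prop := ∀ (p : ℕ) [Fact p.Prime] (k K L : Type u) [Field k] [CharP k p]
  [IsAlgClosed k] [Field K] [Field L] [Algebra K L] [FiniteDimensional K L] [IsGalois K L]
  (κ : k →+* K) (v : AddValuation L (WithTop ℤ)), Ram κ v → IsPGroup p (L ≃ₐ[K] L) →
  ∀ (D : Derivation ℤ L L) (e : ℤ), Dif p K v D e →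
  ∀ ζ : L ≃ₐ[K] L, ζ ∈ Subgroup.center (L ≃ₐ[K] L) → orderOf ζ = p →
  s v ζ = x0 (fun σ : L ≃ₐ[K] L => s v σ) →
  Fintype.card (L ≃ₐ[K] L) ∣
      S1 (fun σ : L ≃ₐ[K] L => s v σ) + x0 (fun σ : L ≃ₐ[K] L => s v σ) ∨
    (p - 1) ^ 2 * (x0 (fun σ : L ≃ₐ[K] L => s v σ) - 1) +
      (p - 1) * x0 (fun σ : L ≃ₐ[K] L => s v σ) < S1 (fun σ : L ≃ₐ[K] L => s v σ)

/-- descent of commuting Artin-Schreier data (pure algebra) -/
def ST_PWA : Prop := ∀ (p : ℕ) [Fact p.Prime] (E : Type u) [Field E] [CharP E p] (r : ℕ)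
  (σ : Fin (r + 1) → (E ≃+* E)) (w g : Fin (r + 1) → E) (f : E),
  (∀ i j x, σ i (σ j x) = σ j (σ i x)) → (∀ i x, (σ i)^[p] x = x) →
  (∀ i j, σ i (w j) = w j + (if i = j then 1 else 0)) →
  (∀ i, σ i f - f = g i ^ p - g i) →
  (∀ i, i ≠ 0 → ∑ l ∈ Finset.range p, (σ i)^[l] (g i) = 0) →
  ∃ (a : Fin (r + 1) → Fin (r + 1) → ℕ) (h f1 g1 : E), (∀ i j, ¬ i < j → a i j = 0) ∧
    f = ∑ i, ∑ j, (a i j : E) * (w i ^ p - w i) * w j + f1 + (h ^ p - h) ∧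
    (∀ i, i ≠ 0 → σ i f1 = f1 ∧ σ i g1 = g1) ∧ σ 0 f1 - f1 = g1 ^ p - g1 ∧
    ∑ l ∈ Finset.range p, (σ 0)^[l] g1 = ∑ l ∈ Finset.range p, (σ 0)^[l] (g 0)

/-- the inequality for the second break of a cyclic extension of degree `p ^ 2` -/
def ST_PWB : Prop := ∀ (p : ℕ) [Fact p.Prime] (k K L : Type u) [Field k] [CharP k p]
  [IsAlgClosed k] [Field K] [Field L] [Algebra K L] [FiniteDimensional K L] [IsGalois K L]
  (κ : k →+* K) (v : AddValuation L (WithTop ℤ)), Ram κ v → Module.finrank K L = p →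
  ∀ (σ : L ≃ₐ[K] L) (f g : L), σ ≠ 1 → σ f - f = g ^ p - g →
  ∑ l ∈ Finset.range p, (⇑σ)^[l] g ≠ 0 → ∃ (h : L) (n : ℕ), ¬ p ∣ n ∧
    v (f - (h ^ p - h)) = ((-(n : ℤ) : ℤ) : WithTop ℤ) ∧ (p ^ 2 - p + 1) * s v σ ≤ n

/-- generators of an elementary abelian extension, dual to a basis of the Galois group -/
def ST_GEN : Prop := ∀ (p : ℕ) [Fact p.Prime] (k K E : Type u) [Field k] [CharP k p]
  [IsAlgClosed k] [Field K] [Field E] [Algebra K E] [FiniteDimensional K E] [IsGalois K E]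
  (κ : k →+* K) (v : AddValuation E (WithTop ℤ)), Ram κ v → ∀ (r : ℕ)
  (φ : (E ≃ₐ[K] E) ≃* Multiplicative (Fin (r + 1) → ZMod p)),
  ∃ (w : Fin (r + 1) → E) (α : Fin (r + 1) → K) (m : Fin (r + 1) → ℕ),
    (∀ (σ : E ≃ₐ[K] E) j, σ (w j) = w j + (((φ σ).toAdd j).val : E)) ∧
    (∀ j, w j ^ p - w j = algebraMap K E (α j)) ∧
    (∀ j, v (w j) = ((-((p ^ r * m j : ℕ) : ℤ) : ℤ) : WithTop ℤ)) ∧
    (∀ j, 1 ≤ m j ∧ ¬ p ∣ m j) ∧
    (∀ j, p ^ (r + 1) * m j ≤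
      S1 (fun σ : E ≃ₐ[K] E => s v σ) + x0 (fun σ : E ≃ₐ[K] E => s v σ)) ∧
    ∀ (σ : E ≃ₐ[K] E) j, s v σ = x0 (fun σ : E ≃ₐ[K] E => s v σ) → (φ σ).toAdd j ≠ 0 →
      p ^ (r + 1) * m j =
        S1 (fun σ : E ≃ₐ[K] E => s v σ) + x0 (fun σ : E ≃ₐ[K] E => s v σ)

/-- the power inequality, in terms of an Artin-Schreier class over an elementary abelian
extension -/
def ST_POW : Prop := ∀ (p : ℕ) [Fact p.Prime], p ≠ 2 → ∀ (k K E : Type u) [Field k] [CharP k p]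
  [IsAlgClosed k] [Field K] [Field E] [Algebra K E] [FiniteDimensional K E] [IsGalois K E]
  (κ : k →+* K) (v : AddValuation E (WithTop ℤ)), Ram κ v →
  ∀ (D : Derivation ℤ E E) (e : ℤ), Dif p K v D e → ∀ (r : ℕ)
  (φ : (E ≃ₐ[K] E) ≃* Multiplicative (Fin (r + 1) → ZMod p)) (σ : Fin (r + 1) → (E ≃ₐ[K] E)),
  (∀ i, φ (σ i) = Multiplicative.ofAdd (Pi.single i 1)) →
  s v (σ 0) = x0 (fun σ : E ≃ₐ[K] E => s v σ) →
  ∀ (f : E) (g : Fin (r + 1) → E) (n : ℕ), ¬ p ∣ n → v f = ((-(n : ℤ) : ℤ) : WithTop ℤ) →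
  (∀ i, σ i f - f = g i ^ p - g i) →
  (∀ i, i ≠ 0 → ∑ l ∈ Finset.range p, (⇑(σ i))^[l] (g i) = 0) →
  ∑ l ∈ Finset.range p, (⇑(σ 0))^[l] (g 0) ≠ 0 →
  p * (S1 (fun σ : E ≃ₐ[K] E => s v σ) + x0 (fun σ : E ≃ₐ[K] E => s v σ)) ≤
    n + S1 (fun σ : E ≃ₐ[K] E => s v σ)

/-- a basis adapted to the `p`-power map -/
def ST_GB : Prop := ∀ (p : ℕ) [Fact p.Prime], p ≠ 2 → ∀ (G : Type u) [Group G] [Finite G]
  (ζ : G), ζ ∈ Subgroup.center G → orderOf ζ = p →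
  (∀ x : G, x ^ p ∈ Subgroup.zpowers ζ) → (∀ x y : G, x * y * x⁻¹ * y⁻¹ ∈ Subgroup.zpowers ζ) →
  ∀ y : G, y ^ p ≠ 1 → ∃ (r : ℕ) (φ : G →* Multiplicative (Fin (r + 1) → ZMod p))
    (x : Fin (r + 1) → G), Function.Surjective φ ∧ φ.ker = Subgroup.zpowers ζ ∧ x 0 = y ∧
    (∀ i, φ (x i) = Multiplicative.ofAdd (Pi.single i 1)) ∧ ∀ i, i ≠ 0 → x i ^ p = 1

/-- the power inequality for a group with commutators and `p`-th powers in `⟨ζ⟩` -/
def ST_PG : Prop := ∀ (p : ℕ) [Fact p.Prime], p ≠ 2 → ∀ (k K L : Type u) [Field k] [CharP k p]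
  [IsAlgClosed k] [Field K] [Field L] [Algebra K L] [FiniteDimensional K L] [IsGalois K L]
  (κ : k →+* K) (v : AddValuation L (WithTop ℤ)), Ram κ v → IsPGroup p (L ≃ₐ[K] L) →
  ∀ (D : Derivation ℤ L L) (e : ℤ), Dif p K v D e →
  ∀ ζ : L ≃ₐ[K] L, ζ ∈ Subgroup.center (L ≃ₐ[K] L) → orderOf ζ = p →
  (∀ x : L ≃ₐ[K] L, x ^ p ∈ Subgroup.zpowers ζ) →
  (∀ x y : L ≃ₐ[K] L, x * y * x⁻¹ * y⁻¹ ∈ Subgroup.zpowers ζ) → ∀ y : L ≃ₐ[K] L, y ^ p ≠ 1 →
  (∀ g : L ≃ₐ[K] L, g ∉ Subgroup.zpowers ζ →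
    cs (fun σ : L ≃ₐ[K] L => s v σ) (Subgroup.zpowers ζ) g ≤
      cs (fun σ : L ≃ₐ[K] L => s v σ) (Subgroup.zpowers ζ) y) →
  p * (cs (fun σ : L ≃ₐ[K] L => s v σ) (Subgroup.zpowers ζ) y +
      SO (fun σ : L ≃ₐ[K] L => s v σ) (Subgroup.zpowers ζ)) ≤
    p * s v ζ + SO (fun σ : L ≃ₐ[K] L => s v σ) (Subgroup.zpowers ζ)

/-! ## The class of ramification functions -/

/-- `s` is the ramification function of a Galois extension with group `G`. -/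
def RG (p : ℕ) (G : Type u) [Group G] [Fintype G] (f : G → ℕ) : Prop :=
  ∃ (k K L : Type u) (_ : Field k) (_ : CharP k p) (_ : IsAlgClosed k) (_ : Field K)
    (_ : Field L) (_ : Algebra K L) (_ : FiniteDimensional K L) (_ : IsGalois K L)
    (κ : k →+* K) (v : AddValuation L (WithTop ℤ)) (D : Derivation ℤ L L) (e : ℤ)
    (j : (L ≃ₐ[K] L) ≃* G), Ram κ v ∧ IsPGroup p G ∧ Dif p K v D e ∧
    ∀ σ : L ≃ₐ[K] L, σ ≠ 1 → f (j σ) = s v σ

/-- basic properties -/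
def ST_RGF : Prop := ∀ (p : ℕ) [Fact p.Prime] (G : Type u) [Group G] [Fintype G] (f : G → ℕ),
  RG p G f → GRF f

/-- subgroups -/
def ST_RS : Prop := ∀ (p : ℕ) [Fact p.Prime] (G : Type u) [Group G] [Fintype G] (f : G → ℕ),
  RG p G f → ∀ (H : Subgroup G) [Fintype H], RG p H (fun h : H => f (h : G))

/-- quotients -/
def ST_RQ : Prop := ∀ (p : ℕ) [Fact p.Prime] (G : Type u) [Group G] [Fintype G] (f : G → ℕ),
  RG p G f → ∀ (N : Subgroup G) [N.Normal] [Fintype (G ⧸ N)], ∃ fQ : G ⧸ N → ℕ,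
  RG p (G ⧸ N) fQ ∧ ∀ g : G, g ∉ N → Nat.card N * fQ (g : G ⧸ N) = cs f N g

/-- `TG` for the class -/
def ST_RT : Prop := ∀ (p : ℕ) [Fact p.Prime] (G : Type u) [Group G] [Fintype G] (f : G → ℕ),
  RG p G f → ∀ ζ : G, ζ ∈ Subgroup.center G → orderOf ζ = p → f ζ = x0 f →
  Fintype.card G ∣ S1 f + x0 f ∨ (p - 1) ^ 2 * (x0 f - 1) + (p - 1) * x0 f < S1 f

/-- `PG` for the class -/
def ST_RP : Prop := ∀ (p : ℕ) [Fact p.Prime], p ≠ 2 → ∀ (G : Type u) [Group G] [Fintype G]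
  (f : G → ℕ), RG p G f → ∀ ζ : G, ζ ∈ Subgroup.center G → orderOf ζ = p →
  (∀ x : G, x ^ p ∈ Subgroup.zpowers ζ) → (∀ x y : G, x * y * x⁻¹ * y⁻¹ ∈ Subgroup.zpowers ζ) →
  ∀ y : G, y ^ p ≠ 1 → (∀ g : G, g ∉ Subgroup.zpowers ζ →
    cs f (Subgroup.zpowers ζ) g ≤ cs f (Subgroup.zpowers ζ) y) →
  p * (cs f (Subgroup.zpowers ζ) y + SO f (Subgroup.zpowers ζ)) ≤
    p * f ζ + SO f (Subgroup.zpowers ζ)

/-! ## Group theory -/

/-- sums over cosets of a subgroup meeting the last ramification group, and of quotients -/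
def ST_QS : Prop := ∀ (p : ℕ) [Fact p.Prime] (G : Type u) [Group G] [Fintype G] (f : G → ℕ),
  RF f → ∀ (N : Subgroup G) [N.Normal] [Fintype (G ⧸ N)] (fQ : G ⧸ N → ℕ),
  (∀ g : G, g ∉ N → Nat.card N * fQ (g : G ⧸ N) = cs f N g) →
  Nat.card N * S1 fQ = SO f N ∧ SI f N + SO f N = S1 f ∧
  (∀ z : G, z ∉ N → f z = x0 f → Nat.card N * fQ (z : G ⧸ N) = x0 f + SI f N ∧
      fQ (z : G ⧸ N) = x0 fQ) ∧
  ∀ g : G, g ∉ N → cs f N g ≤ x0 f + SI f N

/-- a `p`-central group modulo `Ω₁` is `p`-central (`p` odd) -/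
def ST_PCQ : Prop := ∀ (p : ℕ) [Fact p.Prime], p ≠ 2 → ∀ (G : Type u) [Group G] [Finite G],
  IsPGroup p G → (∀ x : G, x ^ p = 1 → x ∈ Subgroup.center G) →
  ∀ x y : G, (x ^ p) ^ p = 1 → (x * y * x⁻¹ * y⁻¹) ^ p = 1

/-- integrality or an upper bound for the last break, for a central elementary abelian
subgroup `J` meeting the last ramification group -/
def ST_TJ : Prop := ∀ (p : ℕ) [Fact p.Prime] (G : Type u) [Group G] [Fintype G] (f : G → ℕ),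
  RG p G f → ∀ J : Subgroup G, J ≤ Subgroup.center G → (∀ x ∈ J, x ^ p = 1) →
  ∀ z ∈ J, z ≠ 1 → f z = x0 f →
  Fintype.card G ∣ S1 f + x0 f ∨
    ((p : ℤ) - 1) ^ 2 * ((SI f J : ℤ) + x0 f - Nat.card J) < p * SO f J

/-- the power inequality for a group with `G / Ω₁(G)` elementary abelian and `Ω₁(G)` central -/
def ST_PJ : Prop := ∀ (p : ℕ) [Fact p.Prime], p ≠ 2 → ∀ (G : Type u) [Group G] [Fintype G]
  (f : G → ℕ), RG p G f → ∀ J : Subgroup G, J ≤ Subgroup.center G →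
  (∀ x : G, x ^ p = 1 ↔ x ∈ J) → (∀ x : G, x ^ p ∈ J) → (∀ x y : G, x * y * x⁻¹ * y⁻¹ ∈ J) →
  ∀ y : G, y ∉ J → (p : ℝ) * phi f (f y) ≤ cond f

/-- the power inequality for `p`-central groups -/
def ST_IND : Prop := ∀ (p : ℕ) [Fact p.Prime], p ≠ 2 → ∀ (G : Type u) [Group G] [Fintype G]
  (f : G → ℕ), RG p G f → (∀ x : G, x ^ p = 1 → x ∈ Subgroup.center G) →
  ∀ y : G, y ^ p ≠ 1 → ((p : ℝ) - 1) * phi f (f y) ≤ cond f

/-- Hasse-Arf for `p`-central groups -/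
def ST_PC : Prop := ∀ (p : ℕ) [Fact p.Prime], p ≠ 2 → ∀ (G : Type u) [Group G] [Fintype G]
  (f : G → ℕ), RG p G f → Nontrivial G → (∀ x : G, x ^ p = 1 → x ∈ Subgroup.center G) →
  Fintype.card G ∣ S1 f + x0 f

/-- the general upper bound, group-theoretic form -/
def ST_UBR : Prop := ∀ (p : ℕ) [Fact p.Prime], p ≠ 2 → ∀ (G : Type u) [Group G] [Fintype G]
  (f : G → ℕ), RG p G f → Nontrivial G → ∃ z : G, z ∈ Subgroup.center G ∧ orderOf z = p ∧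
  ∀ H R : Subgroup G, R ≤ H → (R.subgroupOf H).Normal → z ∉ R →
    (∀ x ∈ H, x ^ p ∈ R → ∀ y ∈ H, x * y * x⁻¹ * y⁻¹ ∈ R) → Nat.card H ∣ S1 f + x0 f

/-- the general upper bound for conductors -/
def ST_UPP : Prop := ∀ (p : ℕ) [Fact p.Prime], p ≠ 2 → ∀ (k : Type u) [Field k] [CharP k p]
  [IsAlgClosed k] (P : Type) [Group P] [Finite P], IsPGroup p P → Nontrivial P →
  ∀ c ∈ condSet k P, ∃ z : P, z ∈ Subgroup.center P ∧ orderOf z = p ∧
    ∀ H R : Subgroup P, R ≤ H → (R.subgroupOf H).Normal → z ∉ R →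
      (∀ x ∈ H, x ^ p ∈ R → ∀ y ∈ H, x * y * x⁻¹ * y⁻¹ ∈ R) → ∃ a : ℤ, (H.index : ℝ) * c = (a : ℝ)

/-- the case of a commutator subgroup of order `p` -/
def ST_GE : Prop := ∀ (p : ℕ) [Fact p.Prime] (P : Type) [Group P] [Finite P],
  IsPGroup p P → Nat.card (commutator P) = p → ∃ E : Subgroup P,
    (∀ a ∈ E, ∀ b ∈ E, a * b = b * a) ∧ (∀ a ∈ E, a ^ p = 1) ∧
    (∀ x ∈ Subgroup.centralizer (E : Set P), x ^ p = 1 →
      ∀ y ∈ Subgroup.centralizer (E : Set P), x * y = y * x) ∧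
    (Subgroup.centralizer (E : Set P)).index = (Subgroup.center P).relIndex E ∧
    ((Subgroup.center P).relIndex E = 1 ∨
      Nat.card (⁅E, (⊤ : Subgroup P)⁆ : Subgroup P) = p)

/-! ## The lower bound -/

/-- Alperin: a `p`-group (`p` odd) that is not `p`-central has a noncentral element `e` of
order `p` with `[e, P]` central elementary abelian -/
def ST_ALP : Prop := ∀ (p : ℕ) [Fact p.Prime], p ≠ 2 → ∀ (P : Type) [Group P] [Finite P],
  IsPGroup p P → (∃ x : P, x ^ p = 1 ∧ x ∉ Subgroup.center P) →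
  ∃ e : P, e ^ p = 1 ∧ e ∉ Subgroup.center P ∧
    ∀ x : P, x * e * x⁻¹ * e⁻¹ ∈ Subgroup.center P ∧ (x * e * x⁻¹ * e⁻¹) ^ p = 1

/-- the lower bound for all groups that are not `p`-central -/
def ST_LOW : Prop := ∀ (p : ℕ) [Fact p.Prime], p ≠ 2 → ∀ (k : Type u) [Field k] [CharP k p]
  [IsAlgClosed k] (P : Type) [Group P] [Finite P], IsPGroup p P → ∀ e : P, e ^ p = 1 →
  e ∉ Subgroup.center P → (∀ x : P, x * e * x⁻¹ * e⁻¹ ∈ Subgroup.center P ∧ (x * e * x⁻¹ * e⁻¹) ^ p = 1) →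
  ∃ n0 : ℕ, ∀ n : ℕ, n0 ≤ n → ¬ p ∣ n → ¬ p ∣ n + 1 → (n : ℝ) + 1 / (p : ℝ) ∈ condSet k P

/-- the main theorem -/
def ST_MAIN : Prop := ∀ (p : ℕ) [Fact p.Prime], p ≠ 2 → ∀ (k : Type u) [Field k] [CharP k p]
  [IsAlgClosed k] (P : Type) [Group P] [Finite P], IsPGroup p P → Nontrivial P →
  0 < NP k P ∧
  (NP k P = 1 ↔ ∀ x : P, x ^ p = 1 → x ∈ Subgroup.center P) ∧
  ((∀ x : P, x ^ p = 1 → x ∈ Subgroup.center P) → ∀ c ∈ condSet k P, ∃ a : ℤ, c = (a : ℝ)) ∧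
  (∀ H : Subgroup P, (∀ x ∈ H, x ^ p = 1 → ∀ y ∈ H, x * y = y * x) → NP k P ∣ H.index) ∧
  (∀ c ∈ condSet k P, ∃ z : P, z ∈ Subgroup.center P ∧ orderOf z = p ∧
    ∀ H R : Subgroup P, R ≤ H → (R.subgroupOf H).Normal → z ∉ R →
      (∀ x ∈ H, x ^ p ∈ R → ∀ y ∈ H, x * y * x⁻¹ * y⁻¹ ∈ R) → ∃ a : ℤ, (H.index : ℝ) * c = (a : ℝ)) ∧
  (Nat.card (commutator P) = p → IsGreatest {m : ℕ | ∃ E : Subgroup P,
    (∀ a ∈ E, ∀ b ∈ E, a * b = b * a) ∧ (∀ a ∈ E, a ^ p = 1) ∧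
    m = (Subgroup.center P).relIndex E} (NP k P))

end Pool.Agent.Helper20.NP
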