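import Pool.Agent.Helper21.DN.All
import Pool.Agent.Helper83.NP.ALP
import Pool.Agent.Helper94.NP.BAS
import Pool.Agent.Helper35.NP.APX
import Pool.Agent.Helper61.NP.RED
import Pool.Agent.Helper61.NP.VK
import Pool.Agent.Helper39.NP.AS1
import Pool.Agent.Helper39.NP.DC
import Pool.Agent.Helper61.NP.DEXT
import Pool.Agent.Helper89.NP.DK
import Pool.Agent.Helper61.NP.DIF0
import Pool.Agent.Helper24.NP.DIFT
import Pool.Agent.Helper80.NP.DIFE
import Pool.Agent.Helper61.NP.DIFR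
import Pool.Agent.Helper11.NP.GB
import Pool.Agent.Helper44.NPC.GE
import Pool.Agent.Helper77.NP.GEN
import Pool.Agent.Helper38.NP.RGF
import Pool.Agent.Helper41.NP.RS
import Pool.Agent.Helper11.NP.RQ
import Pool.Agent.Helper78.NP.PWA
import Pool.Agent.Helper67.NP.PWB
import Pool.Agent.Helper7.NP.POW
import Pool.Agent.Helper2.NP.PG
import Pool.Agent.Helper38.NP.RT
import Pool.Agent.Helper11.NP.QS
import Pool.Agent.Helper38.NP.PJ
import Pool.Agent.Helper11.NP.PCQ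
import Pool.Agent.Helper37.NP.IND
import Pool.Agent.Helper39.NP.TPP
import Pool.Agent.Helper94.NP.TG
import Pool.Agent.Helper15.NP.TJ
import Pool.Agent.Helper41.NP.PC
import Pool.Agent.Helper28.NP.UBR
import Pool.Agent.Helper52.NP.UPP
import Pool.Agent.Helper20.NP.MAIN
import Pool.Agent.Helper26.DNL.Low

set_option autoImplicit false

namespace Pool.Agent.Helper20.NP

open Pool.Agent.Helper21.DN

universe u

theorem np_ALP : ST_ALP := Pool.Agent.Helper20.NP.st_ALP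
theorem np_BAS : ST_BAS.{u} := Pool.Agent.Helper20.NP.st_BAS
theorem np_APX : ST_APX.{u} := Pool.Agent.Helper20.NP.st_APX np_BAS all_S1 all_RFV all_BCH all_P3
theorem np_RED : ST_RED.{u} := Pool.Agent.Helper20.NP.st_RED
theorem np_VK : ST_VK.{u} := Pool.Agent.Helper20.NP.st_VK
theorem np_AS1 : ST_AS1.{u} := Pool.Agent.Helper20.NP.st_AS1 np_RED np_VK all_S1
theorem np_DC : ST_DC.{u} := Pool.Agent.Helper20.NP.st_DC
theorem np_DEXT : ST_DEXT.{u} := Pool.Agent.Helper20.NP.st_DEXT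
theorem np_DK : ST_DK.{u} := Pool.Agent.Helper20.NP.st_DK
theorem np_DIF0 : ST_DIF0.{u} := Pool.Agent.Helper20.NP.st_DIF0 np_DEXT np_DK
theorem np_DIFT : ST_DIFT.{u} := Pool.Agent.Helper20.NP.st_DIFT np_DC np_BAS all_S1
theorem np_DIFE : ST_DIFE.{u} := Pool.Agent.Helper20.NP.st_DIFE np_DC np_DIFT
theorem np_DIFR : ST_DIFR.{u} := Pool.Agent.Helper20.NP.st_DIFR
theorem np_GB : ST_GB.{u} := Pool.Agent.Helper20.NP.st_GB
theorem np_GE : ST_GE := Pool.Agent.Helper20.NP.st_GE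
theorem np_GEN : ST_GEN.{u} := Pool.Agent.Helper20.NP.st_GEN np_AS1 all_HBF all_PHM all_RFV
theorem np_RGF : ST_RGF.{u} := Pool.Agent.Helper20.NP.st_RGF all_GRF
theorem np_RS : ST_RS.{u} := Pool.Agent.Helper20.NP.st_RS np_DIFE all_BCH
theorem np_RQ : ST_RQ.{u} := Pool.Agent.Helper20.NP.st_RQ all_P3 np_DIFR
theorem np_PWA : ST_PWA.{u} := Pool.Agent.Helper20.NP.st_PWA
theorem np_PWB : ST_PWB.{u} := Pool.Agent.Helper20.NP.st_PWB np_RED all_S1
theorem np_POW : ST_POW.{u} := Pool.Agent.Helper20.NP.st_POW np_PWA np_PWB np_GEN np_DIFR np_DIFT all_S1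
theorem np_PG : ST_PG.{u} := Pool.Agent.Helper20.NP.st_PG np_AS1 np_DIFR np_GB np_POW all_BCH all_P3
theorem np_RP : ST_RP.{u} := Pool.Agent.Helper20.NP.st_RP np_PG
theorem np_QS : ST_QS.{u} := Pool.Agent.Helper20.NP.st_QS all_COS
theorem np_PJ : ST_PJ.{u} := Pool.Agent.Helper20.NP.st_PJ np_RGF np_RQ np_RP np_QS all_COS all_PHM
theorem np_PCQ : ST_PCQ.{u} := Pool.Agent.Helper20.NP.st_PCQ
theorem np_IND : ST_IND.{u} := Pool.Agent.Helper20.NP.st_IND np_RGF np_RS np_RQ np_PJ np_PCQ all_CENT all_COS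
theorem np_TPP : ST_TPP.{u} := Pool.Agent.Helper20.NP.st_TPP np_DIFT np_APX np_VK all_S1
theorem np_TG : ST_TG.{u} := Pool.Agent.Helper20.NP.st_TG np_AS1 np_DIFR np_TPP all_BCH all_P3 all_RFV
theorem np_RT : ST_RT.{u} := Pool.Agent.Helper20.NP.st_RT np_TG
theorem np_TJ : ST_TJ.{u} := Pool.Agent.Helper20.NP.st_TJ np_RGF np_RQ np_RT np_QS
theorem np_PC : ST_PC.{u} := Pool.Agent.Helper20.NP.st_PC np_RGF np_TJ np_IND all_CENT
theorem np_UBR : ST_UBR.{u} := Pool.Agent.Helper20.NP.st_UBR np_RGF np_RS np_RQ np_QS np_PC all_CENT all_OUT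
theorem np_UPP : ST_UPP.{u} := Pool.Agent.Helper20.NP.st_UPP np_UBR np_DIF0 all_RAM all_COND
theorem np_LOW : ST_LOW.{u} := by
  intro p _ hp2 k _ _ _ P _ _ hP e he1 he2 _
  exact Pool.Agent.Helper26.DNL.low_cond p hp2 k P hP ⟨e, he2, he1⟩
theorem np_MAIN : ST_MAIN.{u} := Pool.Agent.Helper20.NP.st_MAIN np_UPP np_LOW np_ALP np_GE all_NPU all_NPL Pool.Agent.Helper21.DN.all_MAIN

end Pool.Agent.Helper20.NP
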