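import Pool.Agent.Helper44.NPC.GE

set_option autoImplicit false

/-! Module GE2: groups with `|[Ω₁(P), P]| ≤ p`. -/

namespace Pool.Agent.Helper20.NP

open Pool.Agent.Helper21.DN

/-- the subgroup generated by the elements of order `p` -/
def Om (p : ℕ) (P : Type) [Group P] : Subgroup P := Subgroup.closure {x : P | x ^ p = 1}

theorem ge2_norm (p : ℕ) (P : Type) [Group P] : (Om p P).Normal := by
  constructor
  intro n hn g
  unfold Om at hn ⊢
  induction hn using Subgroup.closure_induction with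
  | mem x hx =>
    refine Subgroup.subset_closure ?_
    show (g * x * g⁻¹) ^ p = 1
    rw [conj_pow, show x ^ p = 1 from hx]
    group
  | one =>
    rw [mul_one, mul_inv_cancel]
    exact Subgroup.one_mem _
  | mul x y hx hy h1 h2 =>
    have h3 : g * (x * y) * g⁻¹ = (g * x * g⁻¹) * (g * y * g⁻¹) := by group
    rw [h3]
    exact Subgroup.mul_mem _ h1 h2
  | inv x hx h1 =>
    have h3 : g * x⁻¹ * g⁻¹ = (g * x * g⁻¹)⁻¹ := by group
    rw [h3]
    exact Subgroup.inv_mem _ h1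

theorem ge2_mem {p : ℕ} {P : Type} [Group P] (E : Subgroup P) (hE : ∀ a ∈ E, a ^ p = 1) :
    E ≤ Om p P := fun a ha => Subgroup.subset_closure (hE a ha)

/-- a normal subgroup of order `p` is central -/
theorem ge2_cen (p : ℕ) [Fact p.Prime] (P : Type) [Group P] [Finite P] (hP : IsPGroup p P)
    (W : Subgroup P) [W.Normal] (hc : Nat.card W ∣ p) : W ≤ Subgroup.center P := by
  rcases (Nat.dvd_prime (Fact.out : p.Prime)).1 hc with hc | hc
  · rw [Subgroup.card_eq_one.1 hc]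
    exact bot_le
  have hP' : IsPGroup p (ConjAct P) := hP.of_equiv ConjAct.toConjAct
  obtain ⟨b, hb, hb1⟩ := hP'.exists_fixed_point_of_prime_dvd_card_of_fixed_point W
    (by rw [hc]) (a := 1) (by intro g; exact smul_one g)
  have hbc : (b : P) ∈ Subgroup.center P := by
    rw [Subgroup.mem_center_iff]
    intro g
    have h1 := congrArg (fun x : W => (x : P)) (hb (ConjAct.toConjAct g))
    have h2 : g * (b : P) * g⁻¹ = b := h1
    exact mul_inv_eq_iff_eq_mul.1 h2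
  have hpr : (Nat.card W).Prime := by rw [hc]; exact Fact.out
  have : Fact (Nat.card W).Prime := ⟨hpr⟩
  rcases ((Subgroup.center P).subgroupOf W).eq_bot_or_eq_top_of_prime_card with h | h
  · exfalso
    have h2 : b ∈ (Subgroup.center P).subgroupOf W := by
      rw [Subgroup.mem_subgroupOf]; exact hbc
    rw [h, Subgroup.mem_bot] at h2
    exact hb1 h2.symm
  · exact Subgroup.subgroupOf_eq_top.1 h

/-- the commutator pairing -/
theorem ge2_pair (p : ℕ) [Fact p.Prime] (P : Type) [Group P] [Finite P] (W : Subgroup P)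
    (hc : Nat.card W ∣ p) (hcen : W ≤ Subgroup.center P)
    (E : Subgroup P) (hmem0 : ∀ (g : P), ∀ e ∈ E, g * e * g⁻¹ * e⁻¹ ∈ W) :
    (Subgroup.centralizer (E : Set P)).index = (Subgroup.center P).relIndex E := by
  obtain ⟨ι, hι⟩ : ∃ ι : W →* ℂˣ, Function.Injective ι := by
    rcases (Nat.dvd_prime (Fact.out : p.Prime)).1 hc with hc | hc
    · have hs : Subsingleton W := (Nat.card_eq_one_iff_unique.1 hc).1
      exact ⟨1, fun a b _ => Subsingleton.elim a b⟩
    · have h1 : Nat.card (rootsOfUnity p ℂ) = p := Complex.card_rootsOfUnity p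
      exact ⟨(rootsOfUnity p ℂ).subtype.comp (mulEquivOfPrimeCardEq hc h1).toMonoidHom,
        (Subgroup.subtype_injective _).comp (mulEquivOfPrimeCardEq hc h1).injective⟩
  have hmem : ∀ (g : P) (e : E), g * e * g⁻¹ * (e : P)⁻¹ ∈ W := fun g e => hmem0 g e e.2
  have hz : ∀ (a : P) (b : E) (c : P), c * (a * b * a⁻¹ * (b : P)⁻¹) =
      (a * b * a⁻¹ * (b : P)⁻¹) * c := fun a b c =>
    Subgroup.mem_center_iff.1 (hcen (hmem a b)) c
  obtain ⟨β, hβ⟩ : ∃ β : P →* (E →* ℂˣ), ∀ (g : P) (e : E),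
      β g e = ι ⟨g * e * g⁻¹ * (e : P)⁻¹, hmem g e⟩ := by
    have h1 : ∀ (g : P) (e e' : E), ι ⟨g * (e * e' : E) * g⁻¹ * ((e * e' : E) : P)⁻¹, hmem g _⟩ =
        ι ⟨g * e * g⁻¹ * (e : P)⁻¹, hmem g e⟩ * ι ⟨g * e' * g⁻¹ * (e' : P)⁻¹, hmem g e'⟩ := by
      intro g e e'
      rw [← map_mul]
      congr 1
      apply Subtype.ext
      show g * ((e : P) * e') * g⁻¹ * ((e : P) * e')⁻¹ =
        (g * e * g⁻¹ * (e : P)⁻¹) * (g * e' * g⁻¹ * (e' : P)⁻¹)
      have h2 := hz g e' (g * e * g⁻¹)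
      calc g * ((e : P) * e') * g⁻¹ * ((e : P) * e')⁻¹ =
          (g * e * g⁻¹ * (g * e' * g⁻¹ * (e' : P)⁻¹)) * (e : P)⁻¹ := by group
        _ = (g * e' * g⁻¹ * (e' : P)⁻¹) * (g * e * g⁻¹) * (e : P)⁻¹ := by rw [h2]
        _ = (g * e' * g⁻¹ * (e' : P)⁻¹) * (g * e * g⁻¹ * (e : P)⁻¹) := by group
        _ = _ := hz g e' _ ▸ rfl
    refine ⟨⟨⟨fun g => ⟨⟨fun e => ι ⟨g * e * g⁻¹ * (e : P)⁻¹, hmem g e⟩, ?_⟩, h1 g⟩, ?_⟩, ?_⟩,
      fun g e => rfl⟩
    · rw [← map_one ι]
      congr 1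
      apply Subtype.ext
      show g * ((1 : E) : P) * g⁻¹ * ((1 : E) : P)⁻¹ = 1
      simp
    · ext e
      show ((ι ⟨1 * e * 1⁻¹ * (e : P)⁻¹, hmem 1 e⟩ : ℂˣ) : ℂ) = ((1 : ℂˣ) : ℂ)
      rw [← map_one ι]
      congr 2
      apply Subtype.ext
      show 1 * (e : P) * 1⁻¹ * (e : P)⁻¹ = 1
      simp
    · intro g g'
      apply MonoidHom.ext
      intro e
      show ι ⟨(g * g') * e * (g * g')⁻¹ * (e : P)⁻¹, hmem _ e⟩ =
        ι ⟨g * e * g⁻¹ * (e : P)⁻¹, hmem g e⟩ * ι ⟨g' * e * g'⁻¹ * (e : P)⁻¹, hmem g' e⟩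
      rw [← map_mul]
      congr 1
      apply Subtype.ext
      show (g * g') * (e : P) * (g * g')⁻¹ * (e : P)⁻¹ =
        (g * e * g⁻¹ * (e : P)⁻¹) * (g' * e * g'⁻¹ * (e : P)⁻¹)
      have h2 := hz g' e g
      calc (g * g') * (e : P) * (g * g')⁻¹ * (e : P)⁻¹ =
          (g * (g' * e * g'⁻¹ * (e : P)⁻¹)) * e * g⁻¹ * (e : P)⁻¹ := by group
        _ = ((g' * e * g'⁻¹ * (e : P)⁻¹) * g) * e * g⁻¹ * (e : P)⁻¹ := by rw [h2]
        _ = (g' * e * g'⁻¹ * (e : P)⁻¹) * (g * e * g⁻¹ * (e : P)⁻¹) := by group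
        _ = _ := (hz g' e _).symm
  have hone : ∀ (g : P) (e : E), β g e = 1 ↔ g * e = e * g := by
    intro g e
    rw [hβ, ← map_one ι, hι.eq_iff, Subtype.ext_iff]
    show g * e * g⁻¹ * (e : P)⁻¹ = 1 ↔ _
    rw [mul_inv_eq_one, mul_inv_eq_iff_eq_mul]
  have h1 : β.ker = Subgroup.centralizer (E : Set P) := by
    ext g
    rw [MonoidHom.mem_ker, Subgroup.mem_centralizer_iff]
    constructor
    · intro h e he
      have := (hone g ⟨e, he⟩).1 (by rw [h]; rfl)
      exact this.symm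
    · intro h
      apply MonoidHom.ext
      intro e
      exact (hone g e).2 (h e e.2).symm
  have h2 : β.flip.ker = (Subgroup.center P).subgroupOf E := by
    ext e
    rw [MonoidHom.mem_ker, Subgroup.mem_subgroupOf, Subgroup.mem_center_iff]
    constructor
    · intro h g
      exact (hone g e).1 (by rw [← MonoidHom.flip_apply, h]; rfl)
    · intro h
      apply MonoidHom.ext
      intro g
      rw [MonoidHom.flip_apply]
      exact (hone g e).2 (h g)
  rw [← h1, ge_dual', h2]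
  rfl

theorem ge2_rel {P : Type} [Group P] [Finite P] (p : ℕ) [Fact p.Prime]
    (hc : Nat.card (⁅Om p P, (⊤ : Subgroup P)⁆ : Subgroup P) ∣ p) (E : Subgroup P)
    (hE : ∀ a ∈ E, a ^ p = 1) :
    (Subgroup.center P).relIndex E = 1 ∨
      Nat.card (⁅E, (⊤ : Subgroup P)⁆ : Subgroup P) = p := by
  have h1 : ⁅E, (⊤ : Subgroup P)⁆ ≤ ⁅Om p P, (⊤ : Subgroup P)⁆ :=
    Subgroup.commutator_mono (ge2_mem E hE) le_rfl
  have h2 : Nat.card (⁅E, (⊤ : Subgroup P)⁆ : Subgroup P) ∣ p :=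
    (Subgroup.card_dvd_of_le h1).trans hc
  rcases (Nat.dvd_prime (Fact.out : p.Prime)).1 h2 with h3 | h3
  · left
    rw [Subgroup.card_eq_one, Subgroup.commutator_eq_bot_iff_le_centralizer,
      Subgroup.coe_top, Subgroup.centralizer_univ] at h3
    exact Subgroup.relIndex_eq_one.2 h3
  · right; exact h3

theorem ge2_main (p : ℕ) [Fact p.Prime] (P : Type) [Group P] [Finite P] (hP : IsPGroup p P)
    (hc : Nat.card (⁅Om p P, (⊤ : Subgroup P)⁆ : Subgroup P) ∣ p) : ∃ E : Subgroup P,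
    (∀ a ∈ E, ∀ b ∈ E, a * b = b * a) ∧ (∀ a ∈ E, a ^ p = 1) ∧
    (∀ x ∈ Subgroup.centralizer (E : Set P), x ^ p = 1 →
      ∀ y ∈ Subgroup.centralizer (E : Set P), x * y = y * x) ∧
    (Subgroup.centralizer (E : Set P)).index = (Subgroup.center P).relIndex E ∧
    ((Subgroup.center P).relIndex E = 1 ∨
      Nat.card (⁅E, (⊤ : Subgroup P)⁆ : Subgroup P) = p) := by
  have hn := ge2_norm p P
  have hcen := ge2_cen p P hP (⁅Om p P, (⊤ : Subgroup P)⁆) hc
  obtain ⟨E, ⟨hE1, hE2⟩, hmax⟩ := Set.exists_max_image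
    {E : Subgroup P | (∀ a ∈ E, ∀ b ∈ E, a * b = b * a) ∧ ∀ a ∈ E, a ^ p = 1}
    (fun E => Nat.card (E.map (QuotientGroup.mk' (Subgroup.center P)))) (Set.toFinite _)
    ⟨⊥, by
      constructor
      · intro a ha b hb
        rw [Subgroup.mem_bot.1 ha, Subgroup.mem_bot.1 hb]
      · intro a ha
        rw [Subgroup.mem_bot.1 ha, one_pow]⟩
  refine ⟨E, hE1, hE2, ?_, ge2_pair p P _ hc hcen E ?_, ge2_rel p hc E hE2⟩
  · intro x hx hxp y hy
    obtain ⟨h1, h2⟩ := ge_add p (insert x (E : Set P)) (by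
      intro a ha b hb
      rcases ha with rfl | ha <;> rcases hb with rfl | hb
      · rfl
      · exact (Subgroup.mem_centralizer_iff.1 hx b hb).symm
      · exact Subgroup.mem_centralizer_iff.1 hx a ha
      · exact hE1 a ha b hb) (by
      intro a ha
      rcases ha with rfl | ha
      · exact hxp
      · exact hE2 a ha)
    have h3 := hmax _ ⟨h1, h2⟩
    have h4 : E ≤ Subgroup.closure (insert x (E : Set P)) := fun a ha =>
      Subgroup.subset_closure (Set.mem_insert_of_mem _ ha)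
    have h5 : E.map (QuotientGroup.mk' (Subgroup.center P)) =
        (Subgroup.closure (insert x (E : Set P))).map (QuotientGroup.mk' (Subgroup.center P)) :=
      Subgroup.eq_of_le_of_card_ge (Subgroup.map_mono h4) h3
    have h6 : QuotientGroup.mk' (Subgroup.center P) x ∈
        E.map (QuotientGroup.mk' (Subgroup.center P)) := by
      rw [h5]
      exact Subgroup.mem_map_of_mem _ (Subgroup.subset_closure (Set.mem_insert _ _))
    obtain ⟨e, he, hex⟩ := h6
    have h7 : e⁻¹ * x ∈ Subgroup.center P := QuotientGroup.eq.1 hex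
    have h8 := Subgroup.mem_center_iff.1 h7 y
    have h9 : e * y = y * e := Subgroup.mem_centralizer_iff.1 hy e he
    calc x * y = e * ((e⁻¹ * x) * y) := by group
      _ = e * (y * (e⁻¹ * x)) := by rw [h8]
      _ = (e * y) * (e⁻¹ * x) := by group
      _ = (y * e) * (e⁻¹ * x) := by rw [h9]
      _ = y * x := by group
  · intro g e he
    have h1 : e * g * e⁻¹ * g⁻¹ ∈ ⁅Om p P, (⊤ : Subgroup P)⁆ :=
      Subgroup.commutator_mem_commutator (ge2_mem E hE2 he) (Subgroup.mem_top g)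
    have h2 := Subgroup.inv_mem _ h1
    have h3 : (e * g * e⁻¹ * g⁻¹)⁻¹ = g * e * g⁻¹ * e⁻¹ := by group
    rw [h3] at h2
    exact h2

end Pool.Agent.Helper20.NP
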