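import Pool.Agent.Helper20.NP.All
import Pool.Agent.Helper20.NP.GE2

set_option autoImplicit false

namespace Pool.Agent.Helper20.NP

open Pool.Agent.Helper21.DN

universe u

/-- the exact formula -/
theorem final_om (p : ℕ) [Fact p.Prime] (hp2 : p ≠ 2) (k : Type u) [Field k] [CharP k p]
    [IsAlgClosed k] (P : Type) [Group P] [Finite P] (hP : IsPGroup p P) (hn : Nontrivial P)
    (hc : Nat.card (⁅Subgroup.closure {x : P | x ^ p = 1}, (⊤ : Subgroup P)⁆ : Subgroup P) ∣ p) :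
    IsGreatest {m : ℕ | ∃ E : Subgroup P, (∀ a ∈ E, ∀ b ∈ E, a * b = b * a) ∧
      (∀ a ∈ E, a ^ p = 1) ∧ m = (Subgroup.center P).relIndex E} (NP k P) := by
  obtain ⟨h0, _, _, h4, _, _⟩ := np_MAIN p hp2 k P hP hn
  have hM := (Pool.Agent.Helper21.DN.all_MAIN p k).2.1 hp2
  have hc' : Nat.card (⁅Om p P, (⊤ : Subgroup P)⁆ : Subgroup P) ∣ p := hc
  obtain ⟨E, hE1, hE2, hE3, hE4, hE5⟩ := ge2_main p P hP hc'
  have h2 : (Subgroup.center P).relIndex E ∣ NP k P := by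
    rcases hE5 with h | h
    · rw [h]
      exact one_dvd _
    · exact hM P hP E hE1 hE2 h
  have h3 : NP k P ∣ (Subgroup.center P).relIndex E := by
    rw [← hE4]
    exact h4 _ hE3
  refine ⟨⟨E, hE1, hE2, Nat.dvd_antisymm h3 h2⟩, ?_⟩
  rintro m ⟨E', hE'1, hE'2, rfl⟩
  rcases ge2_rel p hc' E' hE'2 with h | h
  · rw [h]
    exact h0
  · exact Nat.le_of_dvd h0 (hM P hP E' hE'1 hE'2 h)

end Pool.Agent.Helper20.NP
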